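import Pool.Agent.H72.EN.Targets

/-!
# KCH: sparse sequences are short
-/

set_option autoImplicit false

namespace Pool.Agent.H62.ENL

open Finset Pool.Agent.H6.N4D Pool.Agent.H93.EB Pool.Agent.H28.EN Pool.Agent.H72.EN

theorem pf_KCH : T_KCH := by
  intro B m₀ me K c hB hm hme hc
  obtain ⟨h1, h2⟩ := hc
  have h : ∀ i, i < K → 2 ^ i ≤ c i := by
    intro i
    induction i with
    | zero =>
      intro hi
      have := (h1 0 hi).1
      rw [pow_zero]
      omega
    | succ i ih =>
      intro hi
      have e1 := ih (by omega)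
      have e2 := h2 i hi
      have e3 : 2 * 2 ^ i ≤ B * c i := Nat.mul_le_mul hB e1
      rw [pow_succ]
      omega
  rcases K with _ | K
  · rw [pow_zero]
    omega
  · have e1 := h K (Nat.lt_succ_self K)
    have e2 := (h1 K (Nat.lt_succ_self K)).2
    rw [pow_succ]
    omega

end Pool.Agent.H62.ENL
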